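import Mathlib
import Pool.Agent.Q64.N.Main
import Pool.Agent.Q306.FG.GPThms

/-!
# The Tate conjecture for function fields over finite fields, for the products of varieties with
abelian varieties: Newton strata

Fix a prime number `p` and a nonempty finite set `κ`. For `i` in `κ` let `g i` be a dimension and
let `sl i j`, `j < g i`, be rational numbers between `0` and `1 / 2` such that the `sl i j` and `1
- sl i j` are the slopes of a symmetric Newton polygon with integral break points (`IsNewton`)
which is not the supersingular one, that is `sl i j < 1 / 2` for some `j`. Let `r` be an integer
smaller than all the `g i`, and let `E` be a number field. By the theorem of Honda and Tate,
`Stratum g sl p a` is the set of the families of isogeny classes of abelian varieties of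
dimensions `g i` over the field with `q = p ^ a` elements with these Newton polygons; it consists
of the families `f i` of the characteristic polynomials of Frobenius.

As `a → ∞`, the number of the families in `Stratum g sl p a` tends to infinity, and **the
proportion of those families for which the following is true tends to one**: for all `N` and `ε >
0` there is an `a₀` such that for `a ≥ a₀` there are at least `N` families, and at most `ε` times
their number are exceptions.

Let `A` be an abelian variety over the field with `Q = q ^ s` elements, `s > 0`, which is
isogenous to a product of powers of abelian varieties coming from the field with `q` elements,
with characteristic polynomials `f i`, and let `Z` be **any** smooth variety over the field with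
`Q` elements, proper or not, such that

* the eigenvalues `ρ` of Frobenius on the cohomology of `Z` and their conjugates are in a group of
  rank at most `r` over `E` (`RootsRank`): there are nonzero numbers `u 1, ..., u r` such that
  each `ρ` has a power which is the product of a nonzero element of `E` and of integral powers of
  `u 1, ..., u r`.

**For all `i`, `j`, the Frobenius invariant classes in the cohomology group `H^i(F₀ (A × Z),
ℚ_ℓ(j))` of the generic point of `A × Z` which extend to `A × Z` are the inverse images of unique
Frobenius invariant classes in `H^i(F₀ Z, ℚ_ℓ(j))` which extend to `Z`; and all of the former come
from the higher Chow group `CH^j(Spec F(A × Z), 2 j - i)` (`F` an algebraic closure of the finite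
field) if and only if all of the latter come from `CH^j(Spec F(Z), 2 j - i)`** (`GenericReduces`).
If `Z` is an open subset of a variety `Z'`, the condition is that the classes are unramified
outside of `A × (Z' - Z)`. So for these classes question Q1 for the function field of `A × Z` is
question Q1 for the function field of `Z`, in every bidegree. **If all invariant classes of
bidegree `(i, j)` extend, then question Q1 for `A × Z` and `(i, j)` is equivalent to question Q1
for `Z` and `(i, j)`.** By the theory of weights this is so for `i = 2 j` if `Z` is projective:
the part of `H^(2 j)(F₀ X, ℚ_ℓ(j))` of weight zero is the image of `H^(2 j)(X, ℚ_ℓ(j))` for smooth
projective `X`, and question Q1 says that there are no nonzero invariant classes in it (`j > 0`).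
No case of the conjectures of Tate, Beilinson and Parshin is assumed.

What is used of `A` are known theorems (`IsAbelian`): `H(A)` is generated by `H^1`, Frobenius is
diagonalizable on `H^1` (Weil), the theorem of Tate on divisors, and the nilpotence of
homologically trivial correspondences (Kimura). The groups `H^i(X, ℚ_ℓ(j))` over an algebraic
closure, for `X = Z` and `X = A × Z`, are the groups of bidegree `(i, j)` of a theory which is
modelled by `RelData`, with the formal properties in `IsTheory`: degrees, products with classes on
`A`, push-forward to `Z`, the projection formula, the operation of the correspondences of `A` and
of the Frobenius endomorphism of `Z` (without the Tate twist, so that the Frobenius invariants are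
the elements which are multiplied by `Q ^ j`). The cohomology of the generic points is modelled by
`GenericData` and `IsGeneric`: the restrictions and inverse images commute with Frobenius; the
product of a class on `Z` with a class of positive codimension on `A` vanishes at the generic
point of `A × Z`, as it has a smaller support; the inverse image from the generic point of `Z` to
the one of `A × Z` is injective, and a class comes from a higher Chow group if its inverse image
does (specialization at a closed point of `A`); and the eigenvalues of Frobenius are algebraic
numbers (Deligne).

For `r = 0` the assumption on the eigenvalues says that they and their conjugates have powers in
`E`. A supersingular abelian variety may always be added to the other factor.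

Relation to other results. The count of the families in a stratum is that of helper518
(`NewtonStrata`, MP_ee618e_ag, where it is applied to the Tate conjecture), in the form of
helper64. Helper64 has the theorem for the rational groups (the conjecture of Parshin,
`NewtonStrata`, MP_27fd67_ag). New here is the application to the function field of `A × Z`.

The proof. The elements of the stratum correspond to integral points in a box whose sides tend to
infinity: the coefficients of the trace polynomials, divided by the powers of `p` prescribed by
the Newton polygons (helper518). We apply the sieve only with primes which split completely in the
Galois closure of `E` (Chebotarev, formalized by helper401). So for almost all families the trace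
polynomials are irreducible, and each pair `α`, `q / α` of roots can be exchanged by a Galois
automorphism which fixes all the other roots of all the `f i` and all elements of `E`. A
multiplicative relation between `ρ`, a power of `q` and roots of the `f i`, other than those which
follow from `α (q / α) = q`, would make the `g i > r` numbers `α ^ 2 / q` of one `f i`
multiplicatively dependent modulo `E` and `r` numbers. It follows that the correspondence on `A`
given by the sum of the products of dual classes of divisor products acts as the identity on the
generalized eigenspace (helper64, `exists_classes`). So the generalized eigenspace of Frobenius
for the eigenvalue `Q ^ j` in `H^i(A × Z, ℚ_ℓ(j))` is the sum of the products of finitely many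
products `D t` of divisors on `A` with the cohomology of `Z`. An invariant class at the generic
point which extends to `A × Z` is the restriction of an element of this generalized eigenspace.
All the terms but the one with `D t = 1` vanish at the generic point, and so the class is the
inverse image of a class of `Z`, which is invariant, since the inverse image is injective.
-/

set_option autoImplicit false

namespace Pool.Agent.Results.MP_677d84_ag.NewtonStrata

open Polynomial Pool.Agent.Q64.N Pool.Agent.Q306.FG
open Pool.Agent.Q64.L (RootsRank)

/-- **Question Q1 for the function field of `A × Z` and the classes which extend to `A × Z` is
question Q1 for the function field of `Z` and the classes which extend to `Z`**, for almost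
all families of abelian varieties in each Newton stratum over the fields of characteristic
`p`. -/
theorem result {κ : Type} [Fintype κ] [Nonempty κ] (p : ℕ) [Fact p.Prime]
    -- dimensions and Newton polygons
    (g : κ → ℕ) (sl : ∀ i, Fin (g i) → ℚ) (hsl : ∀ i, IsNewton (sl i))
    (hss : ∀ i, ∃ j, sl i j < 1 / 2)
    -- the rank and the number field
    (r : ℕ) (hr : ∀ i, r < g i) (E : IntermediateField ℚ ℂ) [FiniteDimensional ℚ E]
    -- a number of families, a proportion of exceptions
    (N : ℕ) (ε : ℝ) (hε : 0 < ε) :
    ∃ a₀ : ℕ, ∀ a, a₀ ≤ a →
      (Stratum g sl p a).Finite ∧ N ≤ (Stratum g sl p a).ncard ∧
      ({f ∈ Stratum g sl p a | ¬ GenericReduces (RootsRank E r) (p ^ a) f}.ncard : ℝ) ≤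
        ε * ((Stratum g sl p a).ncard : ℝ) :=
  strata p g sl hsl hss r hr E (fun a f => GenericReduces (RootsRank E r) (p ^ a) f)
    (fun _ _ _ hq hG => genericReduces hq hG) N ε hε

end Pool.Agent.Results.MP_677d84_ag.NewtonStrata
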