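import Mathlib
import Pool.Agent.Q64.L.InstC
import Pool.Agent.Q70.MM.Times
import Pool.Agent.Q306.TP.AngleMain
import Pool.Agent.Q306.FG.GPThms

/-!
# The Tate conjecture for function fields over finite fields, for the products of varieties with
abelian varieties: prime dimensions and generic fields

Let `q = p ^ a`, let `F i` (`i` in a finite set) be CM fields and `π i` a Weil number for `q` in
`F i`, and let `f i` be monic polynomials whose complex roots are conjugates of `π i`
(`IsPolyOf`), for instance the characteristic polynomials of Frobenius of the abelian varieties in
the isogeny class of `π i` over the field with `q` elements. We suppose that each `π i` is simple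
(`IsSimpleWeil`): it is not supersingular, and

* the functions `n` on the complex embeddings of `F i` with `n (conj φ) = - n φ` are an
  irreducible representation of the automorphisms of `ℂ` (`OddIrreducible`), **or**
* `F i` has the degree `2 g` for an odd prime number `g`, all powers of `π i` generate `F i`, and
  either no power of the norm of `π i` to an imaginary quadratic subfield is a power of `q`
  (`NoWeil`; there is no condition if there is no such subfield) or the slopes of `π i` are only
  `0`, `1 / 2`, `1`, with an odd number of slopes `0` (`HasOddRank`). For example, by the second
  part of the theorem, `π i` may be any ordinary Weil number in a CM field of degree `2 g`, `g ≠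
  2` prime, all of whose powers generate the field: this is the case of the ordinary,
  geometrically simple abelian varieties of odd prime dimension;

and that for `i ≠ k` the fields `F i`, `F k` are different (`IsDifferent`): they have different
degrees or different normal closures, and they do not contain the same imaginary quadratic field.
Nothing else is assumed about the Galois groups of the fields.

Let `A` be an abelian variety over the field with `Q = q ^ s` elements which is isogenous to a
product of powers of abelian varieties coming from the field with `q` elements, with
characteristic polynomials `f i`, and let `Z` be **any** smooth variety over the field with `Q`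
elements, proper or not, such that

* the eigenvalues `ρ` of Frobenius on the cohomology of `Z` and their conjugates are unrelated to
  the fields `F i` (`UnrelatedTo`): a function `n` on the complex embeddings of `F i` with `n
  (conj φ) = - n φ` which is invariant under all automorphisms of `ℂ` that fix a power of `ρ` is
  zero. By the third part of the theorem all elements of a number field `E` have this property
  (for one field `F` with a simple Weil number) if the normal closure of `F` is not contained in
  that of `E`, and `F` and `E` do not contain the same imaginary quadratic field;

**For all `i`, `j`, the Frobenius invariant classes in the cohomology group `H^i(F₀ (A × Z),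
ℚ_ℓ(j))` of the generic point of `A × Z` which extend to `A × Z` are the inverse images of unique
Frobenius invariant classes in `H^i(F₀ Z, ℚ_ℓ(j))` which extend to `Z`; and all of the former come
from the higher Chow group `CH^j(Spec F(A × Z), 2 j - i)` (`F` an algebraic closure of the finite
field) if and only if all of the latter come from `CH^j(Spec F(Z), 2 j - i)`** (`GenericReduces`).
If `Z` is an open subset of a variety `Z'`, the condition is that the classes are unramified
outside of `A × (Z' - Z)`. So for these classes question Q1 for the function field of `A × Z` is
question Q1 for the function field of `Z`, in every bidegree. **If all invariant classes of
bidegree `(i, j)` extend, then question Q1 for `A × Z` and `(i, j)` is equivalent to question Q1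
for `Z` and `(i, j)`.** By the theory of weights this is so for `i = 2 j` if `Z` is projective:
the part of `H^(2 j)(F₀ X, ℚ_ℓ(j))` of weight zero is the image of `H^(2 j)(X, ℚ_ℓ(j))` for smooth
projective `X`, and question Q1 says that there are no nonzero invariant classes in it (`j > 0`).
No case of the conjectures of Tate, Beilinson and Parshin is assumed.

What is used of `A` are known theorems (`IsAbelian`): `H(A)` is generated by `H^1`, Frobenius is
diagonalizable on `H^1` (Weil), the theorem of Tate on divisors, and the nilpotence of
homologically trivial correspondences (Kimura). The groups `H^i(X, ℚ_ℓ(j))` over an algebraic
closure, for `X = Z` and `X = A × Z`, are the groups of bidegree `(i, j)` of a theory which is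
modelled by `RelData`, with the formal properties in `IsTheory`: degrees, products with classes on
`A`, push-forward to `Z`, the projection formula, the operation of the correspondences of `A` and
of the Frobenius endomorphism of `Z` (without the Tate twist, so that the Frobenius invariants are
the elements which are multiplied by `Q ^ j`). The cohomology of the generic points is modelled by
`GenericData` and `IsGeneric`: the restrictions and inverse images commute with Frobenius; the
product of a class on `Z` with a class of positive codimension on `A` vanishes at the generic
point of `A × Z`, as it has a smaller support; the inverse image from the generic point of `Z` to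
the one of `A × Z` is injective, and a class comes from a higher Chow group if its inverse image
does (specialization at a closed point of `A`); and the eigenvalues of Frobenius are algebraic
numbers (Deligne).

Relation to other results. The theorem on the angle rank which is used (`angle_family'`) and its
application to the Tate conjecture are in `PrimeReduction`, `PrimeDimensions` (MP_7b53ad_ag,
MP_ee618e_ag, helper306). Helper64 has the reduction of `A × Z` to `Z` for the rational groups and
other classes of abelian varieties `A` (the conjecture of Parshin, MP_27fd67_ag). New here is also
the class of the abelian varieties. New here is the application to the function field of `A × Z`.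

The proof. The differences of the exponents of complex conjugate embeddings in the multiplicative
relations between `q` and the conjugates of one `π i` form a stable space of odd functions. If the
degree of `F i` is twice an odd prime number `g`, then the Galois group permutes the `g` pairs of
embeddings transitively, and the rational permutation representation is the sum of the trivial and
an irreducible one; so there are at most two proper nonzero stable spaces of odd functions, and
only if `F i` contains an imaginary quadratic field. One of them would make a power of `π i` an
element of this field, and the other one is excluded by `NoWeil` or by the number of slopes. The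
odd functions for different fields have no common constituents, apart from those given by common
imaginary quadratic subfields. So the `π i` have maximal angle rank (`angle_family'`). Hence a
multiplicative relation between `ρ`, a power of `q` and roots of the `f i`, other than those which
follow from `α (q / α) = q`, gives a nonzero odd function which is invariant under the
automorphisms fixing a power of `ρ`; there is none, as `ρ` is unrelated to the fields. It follows
that the correspondence on `A` given by the sum of the products of dual classes of divisor
products acts as the identity on the generalized eigenspace (helper64, `exists_classes`). So the
generalized eigenspace of Frobenius for the eigenvalue `Q ^ j` in `H^i(A × Z, ℚ_ℓ(j))` is the sum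
of the products of finitely many products `D t` of divisors on `A` with the cohomology of `Z`. An
invariant class at the generic point which extends to `A × Z` is the restriction of an element of
this generalized eigenspace. All the terms but the one with `D t = 1` vanish at the generic point,
and so the class is the inverse image of a class of `Z`, which is invariant, since the inverse
image is injective.
-/

set_option autoImplicit false

namespace Pool.Agent.Results.MP_677d84_ag.PrimeDimensions

open NumberField Module IntermediateField Polynomial Pool.Agent.Y1.CT Pool.Agent.Q64.L
  Pool.Agent.Q306.TP Pool.Agent.Q306.FG

/-- **Question Q1 for the function field of `A × Z` and the classes which extend to `A × Z` is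
question Q1 for the function field of `Z` and the classes which extend to `Z`**, for the
abelian varieties `A` over finite fields with simple Weil numbers in different fields, for
instance ordinary and of odd prime dimensions, and all unrelated `Z`. -/
theorem result :
    (∀ (p : ℕ) [Fact p.Prime] (a : ℕ) (I : Type) [Fintype I] (F : I → Type)
      [∀ i, Field (F i)] [∀ i, NumberField (F i)] [∀ i, IsCMField (F i)] (π : ∀ i, F i)
      (f : I → ℤ[X]), 0 < a →
      (∀ i, π i * IsCMField.complexConj (F i) (π i) = (p : F i) ^ a) →
      (∀ i, IsSimpleWeil p a (π i)) → (∀ i k, i ≠ k → IsDifferent (F i) (F k)) →
      (∀ i, IsPolyOf (π i) (f i)) → GenericReduces (UnrelatedRoots F) (p ^ a) f) ∧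
    (∀ (p : ℕ) [Fact p.Prime] (a : ℕ) (F : Type) [Field F] [NumberField F] [IsCMField F] (π : F),
      0 < a → π * IsCMField.complexConj F π = (p : F) ^ a →
      (∃ g : ℕ, g.Prime ∧ g ≠ 2 ∧ finrank ℚ F = 2 * g) → (∀ s : ℕ, 0 < s → ℚ⟮π ^ s⟯ = ⊤) →
      (∀ τ : F →+* PadicAlgCl p, ‖τ π‖ = 1 ∨ ‖τ π‖ = ‖(p : PadicAlgCl p) ^ a‖) →
      IsSimpleWeil p a π) ∧
    (∀ (p : ℕ) [Fact p.Prime] (a : ℕ) (F : Type) [Field F] [NumberField F] [IsCMField F] (π : F),
      IsSimpleWeil p a π → ∀ (E : Type) [Field E] [NumberField E],
      ¬ normalClosure ℚ F ℂ ≤ normalClosure ℚ E ℂ → ¬ CommonImaginary F E →
      ∀ (φ : E →+* ℂ) (x : E), UnrelatedTo F (φ x)) := by
  refine ⟨?_, ?_, ?_⟩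
  · intro p _ a I _ F _ _ _ π f ha hw hs hd hf
    exact genericReduces (Nat.one_lt_pow ha.ne' (Fact.out : p.Prime).one_lt)
      (good_unrelated (Pool.Agent.Q70.MM.noRel_of_angle (angle_family' ha hw hs hd) hw f hf))
  · intro p _ a F _ _ _ π ha hw hK hgen hord
    exact simpleWeil_of_ordinary ha hw hK hgen hord
  · intro p _ a F _ _ _ π hs E _ _ hle hcom φ x
    exact unrelated_of_simple hs hle hcom φ x

end Pool.Agent.Results.MP_677d84_ag.PrimeDimensions
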