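import Pool.Agent.Q137.FF.Main

/-!
# The Tate conjecture for function fields over finite fields: rational function fields suffice

Let `p` and `ℓ` be different prime numbers. A finitely generated field `L` of characteristic `p` is the
function field of a geometrically integral variety `X` over the finite field `F` of the elements of `L`
which are algebraic over `𝔽_p`. Let `T.I L i j` be the space of the `G_F`-invariant classes in
`H^i(F_0 X̄, ℚ_ℓ(j))`, and let `T.alg L i j` be the subspace of those which are in the image of
`CH^j(Spec F̄(X), 2j - i)_{ℚ_ℓ}`. Both depend on `L` only, and question Q1 says that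
`AllAlg T L i j : T.alg L i j = ⊤` for all `L`, `i` and `j` (for `p` and `ℓ`).

`IsTheory` lists the known facts that are used: invariance under isomorphisms; the case `L = 𝔽_p`; and
Milnor's exact sequence for the affine line over a finitely generated field `K`. The localization
sequences for the closed points `x` of the affine line over `K̄ = F̄(X)`, homotopy invariance and the
specialization map `s` at `∞` show that
`H^{i+1}(K̄(t))(j+1) → H^{i+1}(K̄)(j+1) ⊕ ⊕_x H^i(κ(x))(j)` is an isomorphism, compatible with the Galois
action, and the same is true for the higher Chow groups of Bloch. The closed points of the affine line over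
`K` are the monic irreducible polynomials `f ∈ K[t]`, and the `G_F`-invariants of the sum over the points
of the line over `K̄` above `f` are the classes `T.I (K[t]/(f)) i j`. Hence a class in
`T.I (K(t)) (i + 1) (j + 1)` is algebraic if and only if its specialization and all its residues are.

**Theorem.** (1) For every finitely generated field `K` of characteristic `p`, Q1 is true for `K(t)` in the
degree `(i + 1, j + 1)` if and only if it is true for `K` in the degree `(i + 1, j + 1)` and for all the
fields `K[t]/(f)` in the degree `(i, j)`.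

(2) Q1 is true for `𝔽_p(x_1, …, x_n)` in the degree `(i + 1, j + 1)` if and only if it is true in the degree
`(i, j)` for all finitely generated fields of characteristic `p` and transcendence degree less than `n`.
(So Q1 for `𝔽_p(x_1, …, x_n)` in all degrees is Q1 for all these fields in all degrees.)

(3) For every integer `d`, Q1 is true for all finitely generated fields of characteristic `p` in all
degrees `(i, i - d)` if and only if this is true for the fields `𝔽_p(x_1, …, x_n)`, `n ≥ 0`.

(4) Q1 is true for `𝔽_p(x_1, …, x_n)` in the degrees `(2j, j)`, `j ≥ 1` (there are no invariant classes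
but zero), and in the degree `(2, 2)`. It is true in all degrees for `𝔽_p(x_1, x_2)`. Here the following
known cases of Q1 (`IsKnown`) are used: the degrees with `i < j` or `2j < i` (there are no invariants by
Deligne's theorem on the weights), the degree `(0, 0)`, the degree `(1, 1)` (Kummer theory), and the
degrees with `i > dim X` (the cohomology is zero).

By (2), Q1 for `𝔽_p(x_1, x_2, x_3)` in the degree `(3, 2)` is equivalent to Q1 in the degree `(2, 1)` for
fields of transcendence degree at most two; the latter is the Tate conjecture for divisors on surfaces over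
finite fields of characteristic `p`.
-/

set_option autoImplicit false

open Polynomial Pool.Agent.Q137.FF

universe w

namespace Pool.Agent.Results.MP_677d84_ag.RationalFunctionFields

/-- The known cases of Q1. -/
structure IsKnown (p : ℕ) [Fact p.Prime] {ℓ : ℕ} [Fact ℓ.Prime] (T : Theory.{w} ℚ_[ℓ]) : Prop where
  weights : ∀ (m : ℕ) (i j : ℤ), i < j ∨ 2 * j < i → AllFG T p m i j
  zero : ∀ m : ℕ, AllFG T p m 0 0
  units : ∀ m : ℕ, AllFG T p m 1 1
  dimension : ∀ (m : ℕ) (i j : ℤ), m < i → AllFG T p m i j

/-- **Rational function fields suffice for the Tate conjecture for function fields.** See the explanations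
above. -/
theorem result {p ℓ : ℕ} [Fact p.Prime] [Fact ℓ.Prime] {T : Theory.{w} ℚ_[ℓ]} (h : IsTheory p T) :
    (∀ (m : ℕ) (K : Type) [Field K], FG p m K → ∀ i j : ℤ,
      (AllLine T K (i + 1) (j + 1) ↔
        AllAlg T K (i + 1) (j + 1) ∧ ∀ f : Pt K, AllPt T f i j)) ∧
    (∀ (n : ℕ) (i j : ℤ), AllRat T p n (i + 1) (j + 1) ↔ ∀ m < n, AllFG T p m i j) ∧
    (∀ d : ℤ, (∀ (m : ℕ) (i : ℤ), AllFG T p m i (i - d)) ↔
      ∀ (n : ℕ) (i : ℤ), AllRat T p n i (i - d)) ∧
    (IsKnown p T → (∀ (n : ℕ) (j : ℤ), 1 ≤ j → AllRat T p n (2 * j) j) ∧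
      (∀ n : ℕ, AllRat T p n 2 2) ∧ ∀ i j : ℤ, AllRat T p 2 i j) := by
  refine ⟨fun m K _ hK i j => line_iff (h.milnor m K hK i j), rat_iff h, all_iff_rat h, fun hk => ?_⟩
  have h1 : ∀ (n : ℕ) (j : ℤ), 1 ≤ j → AllRat T p n (2 * j) j := fun n j hj => by
    have h1 := (rat_iff h n (2 * j - 1) (j - 1)).2 fun m _ =>
      hk.weights m _ _ (Or.inr (by omega))
    rwa [sub_add_cancel, sub_add_cancel] at h1
  have h2 : ∀ n : ℕ, AllRat T p n 2 2 := fun n => (rat_iff h n 1 1).2 fun m _ => hk.units m
  refine ⟨h1, h2, fun i j => ?_⟩
  have hF : FG p 2 (Rat p 2) := ⟨RingHom.id _, RingHom.Finite.id _⟩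
  by_cases hw : i < j ∨ 2 * j < i
  · exact hk.weights 2 i j hw _ hF
  rw [not_or, not_lt, not_lt] at hw
  by_cases h3 : (2 : ℤ) < i
  · exact hk.dimension 2 i j (by exact_mod_cast h3) _ hF
  have h4 : (i = 0 ∧ j = 0) ∨ (i = 1 ∧ j = 1) ∨ (i = 2 ∧ j = 1) ∨ (i = 2 ∧ j = 2) := by omega
  rcases h4 with ⟨rfl, rfl⟩ | ⟨rfl, rfl⟩ | ⟨rfl, rfl⟩ | ⟨rfl, rfl⟩
  · exact hk.zero 2 _ hF
  · exact hk.units 2 _ hF
  · have h5 := h1 2 1 le_rfl
    rwa [show (2 : ℤ) * 1 = 2 by norm_num] at h5
  · exact h2 2

end Pool.Agent.Results.MP_677d84_ag.RationalFunctionFields
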